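import Pool.Agent.Y563.BS.Data

set_option autoImplicit false

/-! Every edge cut of the Blanusa snark with at least two vertices on both sides has at least
four edges; the girth is five. -/

namespace Pool.Agent.Y563.BS

open Finset
open Pool.Agent.Results.MP_b9ebd9_co.ThreeConnectedCounterexample

/-- For each vertex the smaller neighbours, given by their distance minus one. -/
def backL : List (List ℕ) := (List.range 18).map fun j =>
  ((nbL.getD j []).filter (fun v => v.1 < j)).map (fun v => j - 1 - v.1)

/-- the search: `m` is the list of the values at the earlier vertices (last first), `c` the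
number of cut edges so far, `t` the number of vertices on the true side so far -/
def go : List (List ℕ) → List Bool → ℕ → ℕ → Bool
  | [], _, _, t => decide (t ≤ 1 ∨ 17 ≤ t)
  | bl :: rest, m, c, t =>
    (let c1 := c + bl.countP (fun o => m.getD o false != true)
     decide (4 ≤ c1) || go rest (true :: m) c1 (t + 1)) &&
    (let c0 := c + bl.countP (fun o => m.getD o false != false)
     decide (4 ≤ c0) || go rest (false :: m) c0 t)

/-- The number of cut edges at later vertices towards earlier vertices. -/
def cost (f : ℕ → Bool) : List (List ℕ) → ℕ → ℕ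
  | [], _ => 0
  | bl :: rest, j => bl.countP (fun o => f (j - 1 - o) != f j) + cost f rest (j + 1)

/-- the number of true values at later vertices -/
def ones (f : ℕ → Bool) : List (List ℕ) → ℕ → ℕ
  | [], _ => 0
  | _ :: rest, j => (if f j then 1 else 0) + ones f rest (j + 1)

/-- the list of the earlier values -/
def pre (f : ℕ → Bool) : ℕ → List Bool
  | 0 => []
  | j + 1 => f j :: pre f j

/-- all back references are legal -/
def legal : List (List ℕ) → ℕ → Bool
  | [], _ => true
  | bl :: rest, j => bl.all (fun o => decide (o < j)) && legal rest (j + 1)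

lemma pre_getD (f : ℕ → Bool) : ∀ (j o : ℕ), o < j → (pre f j).getD o false = f (j - 1 - o) := by
  intro j
  induction j with
  | zero => intro o h; omega
  | succ j ih =>
    intro o h
    cases o with
    | zero => simp [pre]
    | succ o =>
      have := ih o (by omega)
      rw [pre, List.getD_cons_succ, this]
      congr 1
      omega

lemma go_sound (f : ℕ → Bool) : ∀ (L : List (List ℕ)) (j c t : ℕ), legal L j = true →
    go L (pre f j) c t = true →
    4 ≤ c + cost f L j ∨ t + ones f L j ≤ 1 ∨ 17 ≤ t + ones f L j := by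
  intro L
  induction L with
  | nil =>
    intro j c t _ h
    simp only [go, decide_eq_true_eq] at h
    simp only [cost, ones]
    omega
  | cons bl rest ih =>
    intro j c t hl h
    simp only [legal, Bool.and_eq_true, List.all_eq_true, decide_eq_true_eq] at hl
    obtain ⟨hbl, hrest⟩ := hl
    simp only [go, Bool.and_eq_true, Bool.or_eq_true, decide_eq_true_eq] at h
    obtain ⟨h1, h0⟩ := h
    have hcount : ∀ b : Bool, f j = b →
        bl.countP (fun o => (pre f j).getD o false != b) =
        bl.countP (fun o => f (j - 1 - o) != f j) := by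
      intro b hb
      apply List.countP_congr
      intro o ho
      rw [pre_getD f j o (hbl o ho), hb]
    simp only [cost, ones]
    rcases Bool.eq_false_or_eq_true (f j) with hf | hf
    · rw [hcount true hf] at h1
      have hone : (if f j = true then 1 else 0) = 1 := by simp [hf]
      rw [hone]
      rcases h1 with h1 | h1
      · left; omega
      · have := ih (j + 1) _ (t + 1) hrest (by rw [pre, hf]; exact h1)
        omega
    · rw [hcount false hf] at h0
      have hone : (if f j = true then 1 else 0) = 0 := by simp [hf]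
      rw [hone]
      rcases h0 with h0 | h0
      · left; omega
      · have := ih (j + 1) _ t hrest (by rw [pre, hf]; exact h0)
        omega

lemma go_check : go backL [] 0 0 = true := by decide +kernel

lemma legal_check : legal backL 0 = true := by decide +kernel

lemma backL_eq : backL = [[], [], [0], [], [3, 0], [4], [4], [4, 1], [4, 2, 1], [4, 2, 1], [7], [0], [10, 0], [12], [10], [4, 1], [4, 2, 1], [4, 2, 1]] := by decide +kernel

lemma nb_0 : nb 0 = [4, 5, 13] := rfl
lemma nb_1 : nb 1 = [2, 6, 12] := rfl
lemma nb_2 : nb 2 = [1, 7, 10] := rfl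
lemma nb_3 : nb 3 = [4, 8, 14] := rfl
lemma nb_4 : nb 4 = [0, 3, 9] := rfl
lemma nb_5 : nb 5 = [0, 7, 8] := rfl
lemma nb_6 : nb 6 = [1, 8, 9] := rfl
lemma nb_7 : nb 7 = [2, 5, 9] := rfl
lemma nb_8 : nb 8 = [3, 5, 6] := rfl
lemma nb_9 : nb 9 = [4, 6, 7] := rfl
lemma nb_10 : nb 10 = [2, 11, 15] := rfl
lemma nb_11 : nb 11 = [10, 12, 16] := rfl
lemma nb_12 : nb 12 = [1, 11, 17] := rfl
lemma nb_13 : nb 13 = [0, 15, 16] := rfl
lemma nb_14 : nb 14 = [3, 16, 17] := rfl
lemma nb_15 : nb 15 = [10, 13, 17] := rfl
lemma nb_16 : nb 16 = [11, 13, 14] := rfl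
lemma nb_17 : nb 17 = [12, 14, 15] := rfl

/-- indicator of `S` on the natural numbers -/
def fS (S : Finset (Fin 18)) (i : ℕ) : Bool := if h : i < 18 then decide ((⟨i, h⟩ : Fin 18) ∈ S) else false

lemma fS_val (S : Finset (Fin 18)) (u : Fin 18) : fS S u.1 = decide (u ∈ S) := by
  unfold fS; rw [dif_pos u.2]

/-- the contribution of an ordered pair -/
def pN (f : ℕ → Bool) (e : ℕ × ℕ) : ℕ := if f e.1 = true then (if f e.2 = true then 0 else 1) else 0

/-- the contribution of an edge -/
def qN (f : ℕ → Bool) (e : ℕ × ℕ) : ℕ := if (f e.1 != f e.2) = true then 1 else 0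

lemma pN_add (f : ℕ → Bool) (a b : ℕ) : pN f (a, b) + pN f (b, a) = qN f (a, b) := by
  unfold pN qN
  cases h1 : f a <;> cases h2 : f b <;> simp [h1, h2]

/-- the contribution of an ordered pair -/
def pS (S : Finset (Fin 18)) (u v : Fin 18) : ℕ := if u ∈ S then (if v ∈ S then 0 else 1) else 0

lemma pS_eq (S : Finset (Fin 18)) (u v : Fin 18) : pS S u v = pN (fS S) (u.1, v.1) := by
  unfold pN pS
  rw [fS_val, fS_val]
  simp only [decide_eq_true_eq]

/-- the edges, as pairs (smaller end, larger end) -/
def expand : List (List ℕ) → ℕ → List (ℕ × ℕ)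
  | [], _ => []
  | bl :: rest, j => bl.map (fun o => (j - 1 - o, j)) ++ expand rest (j + 1)

lemma countP_sum (g : ℕ → Bool) (L : List ℕ) :
    L.countP g = (L.map (fun o => if g o = true then 1 else 0)).sum := by
  induction L with
  | nil => simp
  | cons a L ih => rw [List.countP_cons, ih, List.map_cons, List.sum_cons]; ring

lemma cost_expand (f : ℕ → Bool) : ∀ (L : List (List ℕ)) (j : ℕ),
    cost f L j = ((expand L j).map (qN f)).sum := by
  intro L
  induction L with
  | nil => intro j; rfl
  | cons bl rest ih =>
    intro j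
    rw [cost, expand, List.map_append, List.sum_append, ← ih, countP_sum, List.map_map]
    rfl

lemma twice (f : ℕ → Bool) (L : List (ℕ × ℕ)) :
    ((L.flatMap (fun e => [(e.1, e.2), (e.2, e.1)])).map (pN f)).sum = (L.map (qN f)).sum := by
  induction L with
  | nil => rfl
  | cons e L ih =>
    rw [List.flatMap_cons, List.map_append, List.sum_append, ih, List.map_cons (f := qN f),
      List.sum_cons]
    simp only [List.map_cons, List.map_nil, List.sum_cons, List.sum_nil, add_zero]
    rw [pN_add]

/-- all ordered pairs of adjacent vertices -/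
def pairs (L : List (Fin 18)) : List (ℕ × ℕ) := L.flatMap (fun u => (nb u).map (fun v => (u.1, v.1)))

lemma pairs_sum (S : Finset (Fin 18)) (L : List (Fin 18)) :
    (L.map (fun u => ((nb u).map (pS S u)).sum)).sum = ((pairs L).map (pN (fS S))).sum := by
  induction L with
  | nil => rfl
  | cons u L ih =>
    rw [List.map_cons, List.sum_cons, ih]
    unfold pairs
    rw [List.flatMap_cons, List.map_append, List.sum_append, List.map_map]
    congr 2
    apply List.map_congr_left
    intro v _
    exact pS_eq S u v

lemma perm_check : (pairs (List.finRange 18)).Perm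
    ((expand backL 0).flatMap (fun e => [(e.1, e.2), (e.2, e.1)])) := by decide +kernel

lemma cutWeight_eq (S : Finset (Fin 18)) :
    cutWeight G (fun _ => 1) S = ∑ u : Fin 18, ((nb u).map (pS S u)).sum := by
  unfold cutWeight
  have h1 : ∀ u : Fin 18, ((nb u).map (pS S u)).sum =
      ∑ v : Fin 18, if v ∈ nb u then pS S u v else 0 := by
    intro u
    rw [← List.sum_toFinset _ (nb_nodup u), ← Finset.sum_filter]
    apply Finset.sum_congr _ (fun _ _ => rfl)
    ext v
    simp
  rw [Finset.sum_congr rfl (fun u _ => h1 u)]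
  rw [← Finset.sum_subset (Finset.subset_univ S)]
  · apply Finset.sum_congr rfl
    intro u hu
    rw [← Finset.sum_subset (Finset.subset_univ Sᶜ)]
    · refine Finset.sum_congr (by ext v; simp) ?_
      intro v hv
      have hv' : v ∉ S := by simpa using hv
      have hiff : G.Adj u v ↔ v ∈ nb u := ⟨adj_nb u v, nb_adj u v⟩
      unfold pS
      simp only [hu, hv', if_true, if_false]
      by_cases h : G.Adj u v
      · rw [if_pos h, if_pos (hiff.1 h)]
      · rw [if_neg h, if_neg (fun h' => h (hiff.2 h'))]
    · intro v _ hv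
      have hv' : v ∈ S := by simpa using hv
      unfold pS
      simp [hv']
  · intro u _ hu
    apply Finset.sum_eq_zero
    intro v _
    unfold pS
    simp [hu]

lemma cost_eq (S : Finset (Fin 18)) : cutWeight G (fun _ => 1) S = cost (fS S) backL 0 := by
  rw [cutWeight_eq, Fin.sum_univ_def, pairs_sum, (perm_check.map (pN (fS S))).sum_eq, twice,
    ← cost_expand]

lemma card_eq (S : Finset (Fin 18)) : S.card = ones (fS S) backL 0 := by
  have h1 : S.card = ∑ u : Fin 18, if u ∈ S then 1 else 0 := by simp
  have h2 : ∀ u : Fin 18, (if u ∈ S then 1 else 0) = if fS S u.1 = true then 1 else 0 := by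
    intro u
    have hu : fS S u.1 = decide (u ∈ S) := by unfold fS; rw [dif_pos u.2]
    rw [hu]
    simp
  rw [h1, Finset.sum_congr rfl (fun u _ => h2 u), backL_eq, Fin.sum_univ_def]
  have hr : List.finRange 18 = [0,1,2,3,4,5,6,7,8,9,10,11,12,13,14,15,16,17] := by decide +kernel
  rw [hr]
  simp only [List.map_cons, List.map_nil, List.sum_cons, List.sum_nil, add_zero, ones,
    Nat.zero_add, Nat.reduceAdd]
  simp only [Fin.isValue, Fin.coe_ofNat_eq_mod, Nat.reduceMod]

/-- Every edge cut with at least two vertices on both sides has at least four edges. -/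
theorem ess_four (S : Finset (Fin 18)) (h1 : 2 ≤ S.card) (h2 : 2 ≤ Sᶜ.card) :
    4 ≤ cutWeight G (fun _ => 1) S := by
  have h := go_sound (fS S) backL 0 0 0 legal_check go_check
  rw [← cost_eq, ← card_eq] at h
  have h3 : S.card + Sᶜ.card = 18 := by
    rw [Finset.card_add_card_compl]; rfl
  omega

/-! ### Girth -/

lemma no_three : ∀ a : Fin 18, ∀ x ∈ nb a, ∀ y ∈ nb x, a ∉ nb y := by decide +kernel

lemma no_four : ∀ a : Fin 18, ∀ x ∈ nb a, ∀ y ∈ nb x, y ≠ a → ∀ z ∈ nb y, z ≠ x → a ∉ nb z := by
  decide +kernel

theorem girth_five {a : Fin 18} (w : G.Walk a a) (hw : w.IsCycle) : 5 ≤ w.length := by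
  have h3 := hw.three_le_length
  by_contra hlt
  have hcase : w.length = 3 ∨ w.length = 4 := by omega
  have h0 : w.getVert 0 = a := w.getVert_zero
  have hl : w.getVert w.length = a := w.getVert_length
  have hadj : ∀ i, i < w.length → w.getVert (i + 1) ∈ nb (w.getVert i) := fun i hi =>
    adj_nb _ _ (w.adj_getVert_succ hi)
  rcases hcase with h | h
  · rw [h] at hadj hl
    have e0 := hadj 0 (by omega)
    have e1 := hadj 1 (by omega)
    have e2 := hadj 2 (by omega)
    rw [h0] at e0
    rw [hl] at e2
    exact no_three a _ e0 _ e1 e2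
  · have hinj := hw.getVert_injOn
    rw [h] at hadj hl
    have e0 := hadj 0 (by omega)
    have e1 := hadj 1 (by omega)
    have e2 := hadj 2 (by omega)
    have e3 := hadj 3 (by omega)
    rw [h0] at e0
    rw [hl] at e3
    have d1 : w.getVert 2 ≠ a := by
      intro hh
      have := hinj (show (2 : ℕ) ∈ {i | 1 ≤ i ∧ i ≤ w.length} from ⟨by omega, by omega⟩)
        (show (4 : ℕ) ∈ {i | 1 ≤ i ∧ i ≤ w.length} from ⟨by omega, by omega⟩) (hh.trans hl.symm)
      omega
    have d2 : w.getVert 3 ≠ w.getVert 1 := by
      intro hh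
      have := hinj (show (3 : ℕ) ∈ {i | 1 ≤ i ∧ i ≤ w.length} from ⟨by omega, by omega⟩)
        (show (1 : ℕ) ∈ {i | 1 ≤ i ∧ i ≤ w.length} from ⟨by omega, by omega⟩) hh
      omega
    exact no_four a _ e0 _ e1 d1 _ e2 d2 e3

end Pool.Agent.Y563.BS
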