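import Pool.Agent.Helper915.Walks
import Pool.Agent.Results.MP_b9ebd9_co.ThreeConnectedCounterexample

set_option autoImplicit false

/-! The Blanusa snark: 18 vertices, 27 edges (a dot product of two Petersen graphs). -/

namespace Pool.Agent.Y563.BS

open Finset Pool.Agent.Helper915.Walks

/-- The 27 edges. -/
def eL : List (Sym2 (Fin 18)) :=
  [s(0, 5), s(5, 7), s(1, 2), s(1, 6), s(6, 8), s(2, 7), s(7, 9), s(3, 4), s(3, 8), s(8, 5), s(4, 0), s(4, 9), s(9, 6), s(13, 15), s(14, 16), s(10, 11), s(10, 15), s(15, 17), s(11, 12), s(11, 16), s(16, 13), s(12, 17), s(17, 14), s(0, 13), s(1, 12), s(2, 10), s(3, 14)]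

/-- The graph on 18 vertices. -/
def G : SimpleGraph (Fin 18) where
  Adj x y := s(x, y) ∈ eL
  symm := ⟨fun x y h => by rw [Sym2.eq_swap]; exact h⟩
  loopless := ⟨fun x => by revert x; decide +kernel⟩

instance : DecidableRel G.Adj := fun x y => by unfold G; infer_instance

lemma mem_edgeSet_iff (e : Sym2 (Fin 18)) : e ∈ G.edgeSet ↔ e ∈ eL := by
  induction e with
  | _ x y => exact Iff.rfl

lemma eL_nodup : eL.Nodup := by decide +kernel

/-- The edges at each vertex, as a list. -/
def incL : List (List (Sym2 (Fin 18))) :=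
  [[s(0, 5), s(4, 0), s(0, 13)],
   [s(1, 2), s(1, 6), s(1, 12)],
   [s(1, 2), s(2, 7), s(2, 10)],
   [s(3, 4), s(3, 8), s(3, 14)],
   [s(3, 4), s(4, 0), s(4, 9)],
   [s(0, 5), s(5, 7), s(8, 5)],
   [s(1, 6), s(6, 8), s(9, 6)],
   [s(5, 7), s(2, 7), s(7, 9)],
   [s(6, 8), s(3, 8), s(8, 5)],
   [s(7, 9), s(4, 9), s(9, 6)],
   [s(10, 11), s(10, 15), s(2, 10)],
   [s(10, 11), s(11, 12), s(11, 16)],
   [s(11, 12), s(12, 17), s(1, 12)],
   [s(13, 15), s(16, 13), s(0, 13)],
   [s(14, 16), s(17, 14), s(3, 14)],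
   [s(13, 15), s(10, 15), s(15, 17)],
   [s(14, 16), s(11, 16), s(16, 13)],
   [s(15, 17), s(12, 17), s(17, 14)]]

/-- The edges at each vertex. -/
def inc (x : Fin 18) : List (Sym2 (Fin 18)) := incL.getD x.1 []

lemma inc_0 : inc 0 = [s(0, 5), s(4, 0), s(0, 13)] := rfl
lemma inc_1 : inc 1 = [s(1, 2), s(1, 6), s(1, 12)] := rfl
lemma inc_2 : inc 2 = [s(1, 2), s(2, 7), s(2, 10)] := rfl
lemma inc_3 : inc 3 = [s(3, 4), s(3, 8), s(3, 14)] := rfl
lemma inc_4 : inc 4 = [s(3, 4), s(4, 0), s(4, 9)] := rfl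
lemma inc_5 : inc 5 = [s(0, 5), s(5, 7), s(8, 5)] := rfl
lemma inc_6 : inc 6 = [s(1, 6), s(6, 8), s(9, 6)] := rfl
lemma inc_7 : inc 7 = [s(5, 7), s(2, 7), s(7, 9)] := rfl
lemma inc_8 : inc 8 = [s(6, 8), s(3, 8), s(8, 5)] := rfl
lemma inc_9 : inc 9 = [s(7, 9), s(4, 9), s(9, 6)] := rfl
lemma inc_10 : inc 10 = [s(10, 11), s(10, 15), s(2, 10)] := rfl
lemma inc_11 : inc 11 = [s(10, 11), s(11, 12), s(11, 16)] := rfl
lemma inc_12 : inc 12 = [s(11, 12), s(12, 17), s(1, 12)] := rfl
lemma inc_13 : inc 13 = [s(13, 15), s(16, 13), s(0, 13)] := rfl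
lemma inc_14 : inc 14 = [s(14, 16), s(17, 14), s(3, 14)] := rfl
lemma inc_15 : inc 15 = [s(13, 15), s(10, 15), s(15, 17)] := rfl
lemma inc_16 : inc 16 = [s(14, 16), s(11, 16), s(16, 13)] := rfl
lemma inc_17 : inc 17 = [s(15, 17), s(12, 17), s(17, 14)] := rfl

lemma inc_nodup : ∀ x, (inc x).Nodup := by decide +kernel

lemma inc_mem : ∀ x, ∀ e ∈ eL, x ∈ e → e ∈ inc x := by decide +kernel

lemma inc_mem' : ∀ x, ∀ e ∈ inc x, x ∈ e := by decide +kernel

/-- Breadth-first distances in the graph minus two vertices `a ≤ b`, in base 16. -/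
def tab : List (List ℕ) :=
  [[649329313279236059392, 943392412802893430784, 649329314379016122368, 649329313279236047104, 649329313279235862784, 649329313279232913664, 649329313356528763136, 649329313278699188480, 649329313270646128896, 649329313141797171456, 649329311080212803840, 667776022168573522176, 1258143661422898524416, 649311298880726577408, 649113140497122275584, 645870548765415518464, 593989081058107404544, 59105560514568335616],
   [924864905198049501952, 924864905198049501184, 924864905198049493760, 924864905266768917248, 924864905202611856384, 924864905197999170304, 924864905197512631296, 924864905189459567360, 924864905060610548480, 924864901899514618624, 924864852421491368704, 924863779298142659328, 1260360877197875028736, 924648732415935718144, 1217706968467700261632, 887971434642816443136, 39421189659991024384],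
   [924864905198049501248, 924864905198049493056, 924864905266768916544, 924864905202611855424, 924864905197999169616, 924864905197512630336, 924864905189459566656, 924864905060610547776, 924864901899514617920, 924864852421491368000, 924863779298142658624, 1260360879396898283584, 924648732415935717440, 1217706968467700260928, 887971434642816442432, 39421189659991023680],
   [924864905198049493824, 924864905266768905024, 924864905206906815552, 924864905197999162176, 924864905197512623168, 924864905189459559232, 924864905060610540352, 924864901899514610496, 924864852421491360576, 924863779298142651200, 1887838406080151487296, 924648732415935710016, 1217706968467700253504, 888043492236854362944, 39421189659991016256],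
   [924864905266768917312, 924864905486666843216, 924864905266718585664, 924864905334951523392, 924864905258195764032, 924864905060610487104, 924864901968234033984, 924864852490210784064, 924863779366862074688, 1574027584113694749504, 924648732484655133504, 1217706968536419676992, 888043492305573786432, 39421189728710439744],
   [924864905202611856448, 924864905202561524816, 924864905201806550080, 924864905189726954560, 924864905065726551120, 924864901904076973120, 924864852426053723200, 924863779302705013824, 1260360878301949011008, 924648732420498072640, 1217706968472262616128, 887971434647378797632, 39421189664553378880],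
   [924864905197999170368, 924864905197462299728, 924864905189409235776, 924864905060560216896, 924864901899464287040, 924864852421441037120, 924863779298092327744, 1260360877197824697152, 924648732415885386560, 1217706968467649930048, 887971434642766111552, 39421189659940692800],
   [924864905197512631360, 924864905188922696768, 924864905060073677888, 924864901898977748288, 924864852420954498112, 924863779297605788736, 1260360879396361413952, 924648732415398847552, 1217706968467163391296, 887971434642279572544, 39421189659454153792],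
   [924864905189459567424, 924864905052054168384, 924864901890924684096, 924864852412901434176, 924863779289552724800, 1260360877189285094208, 924648732407345783616, 1217706968459110327104, 887971434634226508608, 39421189651401089856],
   [924864905060610548544, 924864901762075665216, 924864852284052415296, 924863779160703705920, 1260360877060436075328, 924648732278496764736, 1217706968330261308224, 887971434505377489728, 39421189522552070976],
   [924864901899514618688, 924864849122956485440, 924863775999607776064, 1260360872799828517696, 924648729117400834880, 1217706964069653750592, 887971448936467604288, 39421186361456141120],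
   [924864852421491368768, 924863726521584526144, 1260360789236944806720, 924648679639377584960, 1217707197166118839104, 887971364274072265536, 39421418358409601856],
   [924863779298142659392, 1260359469822991475520, 924647606516028875584, 1217705842567793419072, 887970308742909600576, 39420063760084181824],
   [1260360877197875028800, 1887334002921885999936, 1254596269674840793920, 1186573900903036822336, 79769256480463725376],
   [924648732415935718208, 1512638700864939303744, 887755261860702659392, 39205016877877240640],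
   [1217706968467700261696, 1180813796979629957952, 37115347750288958272],
   [887971434642816443200, 2528000579734676288],
   [39421189659991024448]]

/-- The rank of `v` in the graph minus `a` and `b`, for `a ≤ b`. -/
def rk (a b v : Fin 18) : ℕ := ((tab.getD a.1 []).getD (b.1 - a.1) 0) / 16 ^ v.1 % 16

/-- The rank of `v` in the graph. -/
def rk0 (v : Fin 18) : ℕ := 924864905198049502016 / 16 ^ v.1 % 16

/-- The root used when `a` and `b` are deleted. -/
def rt (a b : Fin 18) : Fin 18 :=
  if a ≠ 0 ∧ b ≠ 0 then 0 else if a ≠ 1 ∧ b ≠ 1 then 1 else 2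

/-- Neighbours as lists. -/
def nbL : List (List (Fin 18)) :=
  [[4, 5, 13],
   [2, 6, 12],
   [1, 7, 10],
   [4, 8, 14],
   [0, 3, 9],
   [0, 7, 8],
   [1, 8, 9],
   [2, 5, 9],
   [3, 5, 6],
   [4, 6, 7],
   [2, 11, 15],
   [10, 12, 16],
   [1, 11, 17],
   [0, 15, 16],
   [3, 16, 17],
   [10, 13, 17],
   [11, 13, 14],
   [12, 14, 15]]

/-- The neighbours of `x`. -/
def nb (x : Fin 18) : List (Fin 18) := nbL.getD x.1 []

lemma nb_adj : ∀ x, ∀ y ∈ nb x, G.Adj x y := by decide +kernel

lemma adj_nb : ∀ x y, G.Adj x y → y ∈ nb x := by decide +kernel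

lemma nb_nodup : ∀ x, (nb x).Nodup := by decide +kernel

lemma nb_len : ∀ x, (nb x).length = 3 := by decide +kernel

lemma rt_check : ∀ a b : Fin 18, rt a b ≠ a ∧ rt a b ≠ b := by
  decide +kernel

lemma rk_check1 : ∀ a b : Fin 18, a ≤ b → ∀ v : Fin 18, v ≠ a ∧ v ≠ b → rk a b v = 0 →
    v = rt a b := by
  decide +kernel

lemma rk_check2 : ∀ a b : Fin 18, a ≤ b → ∀ v : Fin 18, v ≠ a ∧ v ≠ b → rk a b v ≠ 0 →
      ∃ u ∈ nb v, rk a b u < rk a b v ∧ (u ≠ a ∧ u ≠ b) := by
  decide +kernel

lemma rk0_check1 : ∀ v : Fin 18, rk0 v = 0 → v = 0 := by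
  decide +kernel

lemma rk0_check2 : ∀ v : Fin 18, rk0 v ≠ 0 → ∃ u ∈ nb v, rk0 u < rk0 v := by
  decide +kernel

lemma G_conn_pair (a b : Fin 18) (hab : a ≤ b) :
    (G.induce ((↑({a, b} : Finset (Fin 18)) : Set (Fin 18))ᶜ)).Connected := by
  apply connected_of_rank G {a, b} (rk a b) (rt a b) (by simpa using rt_check a b)
  · intro v hv h
    exact rk_check1 a b hab v (by simpa using hv) h
  · intro v hv h
    obtain ⟨u, hm, h2, hu⟩ := rk_check2 a b hab v (by simpa using hv) h
    exact ⟨u, by simpa using hu, nb_adj v u hm, h2⟩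

lemma G_three_connected : 3 < Fintype.card (Fin 18) ∧
    ∀ S : Finset (Fin 18), S.card < 3 → (G.induce ((↑S : Set (Fin 18))ᶜ)).Connected := by
  refine ⟨by simp, ?_⟩
  intro S hS
  have hcases : S = ∅ ∨ ∃ a b : Fin 18, S = {a, b} := by
    rcases Nat.lt_or_ge S.card 1 with h | h
    · left
      exact Finset.card_eq_zero.1 (by omega)
    · rcases Nat.lt_or_ge S.card 2 with h' | h'
      · obtain ⟨a, ha⟩ := Finset.card_eq_one.1 (show S.card = 1 by omega)
        exact Or.inr ⟨a, a, by simp [ha]⟩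
      · obtain ⟨a, b, _, hab⟩ := Finset.card_eq_two.1 (show S.card = 2 by omega)
        exact Or.inr ⟨a, b, hab⟩
  rcases hcases with rfl | ⟨a, b, rfl⟩
  · apply connected_of_rank G ∅ rk0 0 (by simp)
    · intro v _ hv
      exact rk0_check1 v hv
    · intro v _ hv
      obtain ⟨u, hm, hu⟩ := rk0_check2 v hv
      exact ⟨u, by simp, nb_adj v u hm, hu⟩
  · rcases le_total a b with hab | hab
    · exact G_conn_pair a b hab
    · rw [Finset.pair_comm]
      exact G_conn_pair b a hab

/-! ### A cycle cover of total length 36 -/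

def c0 : G.Walk 0 0 :=
  .cons (by decide : G.Adj 0 5) <|
  .cons (by decide : G.Adj 5 7) <|
  .cons (by decide : G.Adj 7 2) <|
  .cons (by decide : G.Adj 2 10) <|
  .cons (by decide : G.Adj 10 11) <|
  .cons (by decide : G.Adj 11 16) <|
  .cons (by decide : G.Adj 16 13) <|
  .cons (by decide : G.Adj 13 0) .nil

lemma c0_cycle : c0.IsCycle := by
  rw [SimpleGraph.Walk.isCycle_def]
  refine ⟨?_, ?_, ?_⟩
  · rw [SimpleGraph.Walk.isTrail_def]; decide +kernel
  · simp [c0]
  · decide +kernel

def c1 : G.Walk 10 10 :=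
  .cons (by decide : G.Adj 10 15) <|
  .cons (by decide : G.Adj 15 17) <|
  .cons (by decide : G.Adj 17 12) <|
  .cons (by decide : G.Adj 12 1) <|
  .cons (by decide : G.Adj 1 2) <|
  .cons (by decide : G.Adj 2 10) .nil

lemma c1_cycle : c1.IsCycle := by
  rw [SimpleGraph.Walk.isCycle_def]
  refine ⟨?_, ?_, ?_⟩
  · rw [SimpleGraph.Walk.isTrail_def]; decide +kernel
  · simp [c1]
  · decide +kernel

def c2 : G.Walk 5 5 :=
  .cons (by decide : G.Adj 5 7) <|
  .cons (by decide : G.Adj 7 9) <|
  .cons (by decide : G.Adj 9 4) <|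
  .cons (by decide : G.Adj 4 3) <|
  .cons (by decide : G.Adj 3 14) <|
  .cons (by decide : G.Adj 14 16) <|
  .cons (by decide : G.Adj 16 11) <|
  .cons (by decide : G.Adj 11 12) <|
  .cons (by decide : G.Adj 12 1) <|
  .cons (by decide : G.Adj 1 6) <|
  .cons (by decide : G.Adj 6 8) <|
  .cons (by decide : G.Adj 8 5) .nil

lemma c2_cycle : c2.IsCycle := by
  rw [SimpleGraph.Walk.isCycle_def]
  refine ⟨?_, ?_, ?_⟩
  · rw [SimpleGraph.Walk.isTrail_def]; decide +kernel
  · simp [c2]
  · decide +kernel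

def c3 : G.Walk 6 6 :=
  .cons (by decide : G.Adj 6 8) <|
  .cons (by decide : G.Adj 8 3) <|
  .cons (by decide : G.Adj 3 14) <|
  .cons (by decide : G.Adj 14 17) <|
  .cons (by decide : G.Adj 17 15) <|
  .cons (by decide : G.Adj 15 13) <|
  .cons (by decide : G.Adj 13 0) <|
  .cons (by decide : G.Adj 0 4) <|
  .cons (by decide : G.Adj 4 9) <|
  .cons (by decide : G.Adj 9 6) .nil

lemma c3_cycle : c3.IsCycle := by
  rw [SimpleGraph.Walk.isCycle_def]
  refine ⟨?_, ?_, ?_⟩
  · rw [SimpleGraph.Walk.isTrail_def]; decide +kernel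
  · simp [c3]
  · decide +kernel

/-- The family of cycles. -/
def fam : List (Σ u : Fin 18, G.Walk u u) := [⟨0, c0⟩, ⟨10, c1⟩, ⟨5, c2⟩, ⟨6, c3⟩]

lemma fam_cycles : ∀ C ∈ fam, C.2.IsCycle := by
  intro C hC
  simp only [fam, List.mem_cons, List.not_mem_nil, or_false] at hC
  rcases hC with rfl | rfl | rfl | rfl
  · exact c0_cycle
  · exact c1_cycle
  · exact c2_cycle
  · exact c3_cycle

lemma fam_covers : ∀ e ∈ G.edgeSet, ∃ C ∈ fam, e ∈ C.2.edges := by
  intro e he
  rw [mem_edgeSet_iff] at he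
  revert e
  decide +kernel

lemma fam_length : (fam.map (fun C => C.2.length)).sum = 36 := by
  decide +kernel

/-! ### A closed walk of length 36 that uses every edge -/

def tour : G.Walk 0 0 :=
  .cons (by decide : G.Adj 0 13) <|
  .cons (by decide : G.Adj 13 16) <|
  .cons (by decide : G.Adj 16 11) <|
  .cons (by decide : G.Adj 11 16) <|
  .cons (by decide : G.Adj 16 14) <|
  .cons (by decide : G.Adj 14 3) <|
  .cons (by decide : G.Adj 3 14) <|
  .cons (by decide : G.Adj 14 17) <|
  .cons (by decide : G.Adj 17 15) <|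
  .cons (by decide : G.Adj 15 17) <|
  .cons (by decide : G.Adj 17 12) <|
  .cons (by decide : G.Adj 12 1) <|
  .cons (by decide : G.Adj 1 12) <|
  .cons (by decide : G.Adj 12 11) <|
  .cons (by decide : G.Adj 11 10) <|
  .cons (by decide : G.Adj 10 2) <|
  .cons (by decide : G.Adj 2 10) <|
  .cons (by decide : G.Adj 10 15) <|
  .cons (by decide : G.Adj 15 13) <|
  .cons (by decide : G.Adj 13 0) <|
  .cons (by decide : G.Adj 0 4) <|
  .cons (by decide : G.Adj 4 9) <|
  .cons (by decide : G.Adj 9 6) <|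
  .cons (by decide : G.Adj 6 8) <|
  .cons (by decide : G.Adj 8 3) <|
  .cons (by decide : G.Adj 3 4) <|
  .cons (by decide : G.Adj 4 9) <|
  .cons (by decide : G.Adj 9 7) <|
  .cons (by decide : G.Adj 7 2) <|
  .cons (by decide : G.Adj 2 1) <|
  .cons (by decide : G.Adj 1 6) <|
  .cons (by decide : G.Adj 6 8) <|
  .cons (by decide : G.Adj 8 5) <|
  .cons (by decide : G.Adj 5 7) <|
  .cons (by decide : G.Adj 7 5) <|
  .cons (by decide : G.Adj 5 0) .nil

lemma tour_covers : ∀ e ∈ G.edgeSet, e ∈ tour.edges := by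
  intro e he
  rw [mem_edgeSet_iff] at he
  revert e
  decide +kernel

lemma tour_length : tour.length = 36 := by
  decide +kernel

/-! ### The lower bounds -/

lemma lower (c : Sym2 (Fin 18) → ℕ) (hpos : ∀ e ∈ eL, 1 ≤ c e)
    (hpar : ∀ x, ((inc x).map c).sum % 2 = 0) : 36 ≤ (eL.map c).sum := by
  have h0 := hpar 0
  have h1 := hpar 1
  have h2 := hpar 2
  have h3 := hpar 3
  have h4 := hpar 4
  have h5 := hpar 5
  have h6 := hpar 6
  have h7 := hpar 7
  have h8 := hpar 8
  have h9 := hpar 9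
  have h10 := hpar 10
  have h11 := hpar 11
  have h12 := hpar 12
  have h13 := hpar 13
  have h14 := hpar 14
  have h15 := hpar 15
  have h16 := hpar 16
  have h17 := hpar 17
  simp only [eL, List.forall_mem_cons, List.not_mem_nil, false_imp_iff, implies_true, and_true] at hpos
  simp only [inc_0, inc_1, inc_2, inc_3, inc_4, inc_5, inc_6, inc_7, inc_8, inc_9, inc_10, inc_11, inc_12, inc_13, inc_14, inc_15, inc_16, inc_17, List.map_cons, List.map_nil, List.sum_cons, List.sum_nil, add_zero] at h0 h1 h2 h3 h4 h5 h6 h7 h8 h9 h10 h11 h12 h13 h14 h15 h16 h17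
  simp only [eL, List.map_cons, List.map_nil, List.sum_cons, List.sum_nil, add_zero]
  obtain ⟨e0, e1, e2, e3, e4, e5, e6, e7, e8, e9, e10, e11, e12, e13, e14, e15, e16, e17, e18, e19, e20, e21, e22, e23, e24, e25, e26⟩ := hpos
  have g0 : 4 ≤ c s(0, 5) + c s(4, 0) + c s(0, 13) := by omega
  have g1 : 4 ≤ c s(1, 2) + c s(1, 6) + c s(1, 12) := by omega
  have g2 : 4 ≤ c s(1, 2) + c s(2, 7) + c s(2, 10) := by omega
  have g3 : 4 ≤ c s(3, 4) + c s(3, 8) + c s(3, 14) := by omega
  have g4 : 4 ≤ c s(3, 4) + c s(4, 0) + c s(4, 9) := by omega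
  have g5 : 4 ≤ c s(0, 5) + c s(5, 7) + c s(8, 5) := by omega
  have g6 : 4 ≤ c s(1, 6) + c s(6, 8) + c s(9, 6) := by omega
  have g7 : 4 ≤ c s(5, 7) + c s(2, 7) + c s(7, 9) := by omega
  have g8 : 4 ≤ c s(6, 8) + c s(3, 8) + c s(8, 5) := by omega
  have g9 : 4 ≤ c s(7, 9) + c s(4, 9) + c s(9, 6) := by omega
  have g10 : 4 ≤ c s(10, 11) + c s(10, 15) + c s(2, 10) := by omega
  have g11 : 4 ≤ c s(10, 11) + c s(11, 12) + c s(11, 16) := by omega
  have g12 : 4 ≤ c s(11, 12) + c s(12, 17) + c s(1, 12) := by omega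
  have g13 : 4 ≤ c s(13, 15) + c s(16, 13) + c s(0, 13) := by omega
  have g14 : 4 ≤ c s(14, 16) + c s(17, 14) + c s(3, 14) := by omega
  have g15 : 4 ≤ c s(13, 15) + c s(10, 15) + c s(15, 17) := by omega
  have g16 : 4 ≤ c s(14, 16) + c s(11, 16) + c s(16, 13) := by omega
  have g17 : 4 ≤ c s(15, 17) + c s(12, 17) + c s(17, 14) := by omega
  clear h0 h1 h2 h3 h4 h5 h6 h7 h8 h9 h10 h11 h12 h13 h14 h15 h16 h17
  omega

lemma tour_lower {u : Fin 18} (p : G.Walk u u) (hp : ∀ e ∈ G.edgeSet, e ∈ p.edges) :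
    36 ≤ p.length := by
  have hlen := length_eq_sum eL eL_nodup p.edges
    (fun e he => (mem_edgeSet_iff e).1 (SimpleGraph.Walk.edges_subset_edgeSet p he))
  rw [SimpleGraph.Walk.length_edges] at hlen
  rw [hlen]
  exact lower (fun e => p.edges.count e)
    (fun e he => List.one_le_count_iff.2 (hp e ((mem_edgeSet_iff e).2 he)))
    (fun x => inc_parity p x (inc x) (inc_nodup x) (inc_mem' x)
      (fun e he => inc_mem x e ((mem_edgeSet_iff e).1 he)))

lemma cov_parity (F : List (Σ u : Fin 18, G.Walk u u)) (hF : ∀ C ∈ F, C.2.IsCycle)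
    (x : Fin 18) : ((inc x).map (fun e => cov F e)).sum % 2 = 0 :=
  family_parity F hF x (inc x) (inc_nodup x) (inc_mem' x)
    (fun e he => inc_mem x e ((mem_edgeSet_iff e).1 he))

lemma cover_lower (F : List (Σ u : Fin 18, G.Walk u u)) (hF : ∀ C ∈ F, C.2.IsCycle)
    (hcov : ∀ e ∈ G.edgeSet, ∃ C ∈ F, e ∈ C.2.edges) :
    36 ≤ (F.map (fun C => C.2.length)).sum := by
  rw [family_length F hF eL eL_nodup (fun e he => (mem_edgeSet_iff e).1 he)]
  refine lower (fun e => cov F e) (fun e he => ?_) (cov_parity F hF)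
  obtain ⟨C, hC, hCe⟩ := hcov e ((mem_edgeSet_iff e).2 he)
  exact List.countP_pos_iff.2 ⟨C, hC, by simpa using hCe⟩

/-! ### A weight without a cover -/

/-- A perfect matching whose complement consists of two 9-cycles. -/
def mL : List (Sym2 (Fin 18)) :=
  [s(0, 5), s(1, 2), s(6, 8), s(7, 9), s(3, 4), s(10, 15), s(11, 12), s(16, 13), s(17, 14)]

/-- The weight: 2 on the perfect matching, 1 elsewhere. -/
def wt (e : Sym2 (Fin 18)) : ℕ := if e ∈ mL then 2 else 1

lemma wt_degree : ∀ u : Fin 18, Even (∑ v, if G.Adj u v then wt s(u, v) else 0) := by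
  decide +kernel

/-- membership indicator -/
def chi (F : List (Σ u : Fin 18, G.Walk u u)) (e : Sym2 (Fin 18)) (k : Fin F.length) : ℕ :=
  if e ∈ (F.get k).2.edges then 1 else 0

/-- the indices of the members that contain `e` -/
def S (F : List (Σ u : Fin 18, G.Walk u u)) (e : Sym2 (Fin 18)) : Finset (Fin F.length) :=
  univ.filter (fun k => e ∈ (F.get k).2.edges)

lemma ite_S (F : List (Σ u : Fin 18, G.Walk u u)) (e : Sym2 (Fin 18)) (k : Fin F.length) :
    (if k ∈ S F e then 1 else 0) = chi F e k := by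
  simp [S, chi]

lemma card_S (F : List (Σ u : Fin 18, G.Walk u u)) (e : Sym2 (Fin 18)) :
    (S F e).card = cov F e :=
  (countP_eq_card (fun C : (Σ u : Fin 18, G.Walk u u) => e ∈ C.2.edges) F).symm

lemma chi_parity (F : List (Σ u : Fin 18, G.Walk u u)) (hF : ∀ C ∈ F, C.2.IsCycle)
    (x : Fin 18) (k : Fin F.length) : ((inc x).map (fun e => chi F e k)).sum % 2 = 0 := by
  have hC := hF (F.get k) (List.get_mem F k)
  have h := inc_parity (F.get k).2 x (inc x) (inc_nodup x) (inc_mem' x)
    (fun e he => inc_mem x e ((mem_edgeSet_iff e).1 he))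
  rw [← h]
  congr 2
  apply List.map_congr_left
  intro e _
  rw [count_cycle hC]
  rfl

lemma p0 (F : List (Σ u : Fin 18, G.Walk u u)) (hF : ∀ C ∈ F, C.2.IsCycle) :
    Par (S F s(4, 0)) (S F s(0, 13)) (S F s(0, 5)) := by
  intro k
  rw [ite_S, ite_S, ite_S]
  have h0 := chi_parity F hF 0 k
  simp only [inc_0, List.map_cons, List.map_nil, List.sum_cons, List.sum_nil] at h0
  omega

lemma p1 (F : List (Σ u : Fin 18, G.Walk u u)) (hF : ∀ C ∈ F, C.2.IsCycle) :
    Par (S F s(1, 6)) (S F s(1, 12)) (S F s(1, 2)) := by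
  intro k
  rw [ite_S, ite_S, ite_S]
  have h0 := chi_parity F hF 1 k
  simp only [inc_1, List.map_cons, List.map_nil, List.sum_cons, List.sum_nil] at h0
  omega

lemma p2 (F : List (Σ u : Fin 18, G.Walk u u)) (hF : ∀ C ∈ F, C.2.IsCycle) :
    Par (S F s(2, 7)) (S F s(2, 10)) (S F s(1, 2)) := by
  intro k
  rw [ite_S, ite_S, ite_S]
  have h0 := chi_parity F hF 2 k
  simp only [inc_2, List.map_cons, List.map_nil, List.sum_cons, List.sum_nil] at h0
  omega

lemma p3 (F : List (Σ u : Fin 18, G.Walk u u)) (hF : ∀ C ∈ F, C.2.IsCycle) :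
    Par (S F s(3, 8)) (S F s(3, 14)) (S F s(3, 4)) := by
  intro k
  rw [ite_S, ite_S, ite_S]
  have h0 := chi_parity F hF 3 k
  simp only [inc_3, List.map_cons, List.map_nil, List.sum_cons, List.sum_nil] at h0
  omega

lemma p4 (F : List (Σ u : Fin 18, G.Walk u u)) (hF : ∀ C ∈ F, C.2.IsCycle) :
    Par (S F s(4, 0)) (S F s(4, 9)) (S F s(3, 4)) := by
  intro k
  rw [ite_S, ite_S, ite_S]
  have h0 := chi_parity F hF 4 k
  simp only [inc_4, List.map_cons, List.map_nil, List.sum_cons, List.sum_nil] at h0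
  omega

lemma p5 (F : List (Σ u : Fin 18, G.Walk u u)) (hF : ∀ C ∈ F, C.2.IsCycle) :
    Par (S F s(5, 7)) (S F s(8, 5)) (S F s(0, 5)) := by
  intro k
  rw [ite_S, ite_S, ite_S]
  have h0 := chi_parity F hF 5 k
  simp only [inc_5, List.map_cons, List.map_nil, List.sum_cons, List.sum_nil] at h0
  omega

lemma p6 (F : List (Σ u : Fin 18, G.Walk u u)) (hF : ∀ C ∈ F, C.2.IsCycle) :
    Par (S F s(1, 6)) (S F s(9, 6)) (S F s(6, 8)) := by
  intro k
  rw [ite_S, ite_S, ite_S]
  have h0 := chi_parity F hF 6 k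
  simp only [inc_6, List.map_cons, List.map_nil, List.sum_cons, List.sum_nil] at h0
  omega

lemma p7 (F : List (Σ u : Fin 18, G.Walk u u)) (hF : ∀ C ∈ F, C.2.IsCycle) :
    Par (S F s(5, 7)) (S F s(2, 7)) (S F s(7, 9)) := by
  intro k
  rw [ite_S, ite_S, ite_S]
  have h0 := chi_parity F hF 7 k
  simp only [inc_7, List.map_cons, List.map_nil, List.sum_cons, List.sum_nil] at h0
  omega

lemma p8 (F : List (Σ u : Fin 18, G.Walk u u)) (hF : ∀ C ∈ F, C.2.IsCycle) :
    Par (S F s(3, 8)) (S F s(8, 5)) (S F s(6, 8)) := by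
  intro k
  rw [ite_S, ite_S, ite_S]
  have h0 := chi_parity F hF 8 k
  simp only [inc_8, List.map_cons, List.map_nil, List.sum_cons, List.sum_nil] at h0
  omega

lemma p9 (F : List (Σ u : Fin 18, G.Walk u u)) (hF : ∀ C ∈ F, C.2.IsCycle) :
    Par (S F s(4, 9)) (S F s(9, 6)) (S F s(7, 9)) := by
  intro k
  rw [ite_S, ite_S, ite_S]
  have h0 := chi_parity F hF 9 k
  simp only [inc_9, List.map_cons, List.map_nil, List.sum_cons, List.sum_nil] at h0
  omega

lemma p10 (F : List (Σ u : Fin 18, G.Walk u u)) (hF : ∀ C ∈ F, C.2.IsCycle) :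
    Par (S F s(10, 11)) (S F s(2, 10)) (S F s(10, 15)) := by
  intro k
  rw [ite_S, ite_S, ite_S]
  have h0 := chi_parity F hF 10 k
  simp only [inc_10, List.map_cons, List.map_nil, List.sum_cons, List.sum_nil] at h0
  omega

lemma p11 (F : List (Σ u : Fin 18, G.Walk u u)) (hF : ∀ C ∈ F, C.2.IsCycle) :
    Par (S F s(10, 11)) (S F s(11, 16)) (S F s(11, 12)) := by
  intro k
  rw [ite_S, ite_S, ite_S]
  have h0 := chi_parity F hF 11 k
  simp only [inc_11, List.map_cons, List.map_nil, List.sum_cons, List.sum_nil] at h0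
  omega

lemma p12 (F : List (Σ u : Fin 18, G.Walk u u)) (hF : ∀ C ∈ F, C.2.IsCycle) :
    Par (S F s(12, 17)) (S F s(1, 12)) (S F s(11, 12)) := by
  intro k
  rw [ite_S, ite_S, ite_S]
  have h0 := chi_parity F hF 12 k
  simp only [inc_12, List.map_cons, List.map_nil, List.sum_cons, List.sum_nil] at h0
  omega

lemma p13 (F : List (Σ u : Fin 18, G.Walk u u)) (hF : ∀ C ∈ F, C.2.IsCycle) :
    Par (S F s(13, 15)) (S F s(0, 13)) (S F s(16, 13)) := by
  intro k
  rw [ite_S, ite_S, ite_S]
  have h0 := chi_parity F hF 13 k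
  simp only [inc_13, List.map_cons, List.map_nil, List.sum_cons, List.sum_nil] at h0
  omega

lemma p14 (F : List (Σ u : Fin 18, G.Walk u u)) (hF : ∀ C ∈ F, C.2.IsCycle) :
    Par (S F s(14, 16)) (S F s(3, 14)) (S F s(17, 14)) := by
  intro k
  rw [ite_S, ite_S, ite_S]
  have h0 := chi_parity F hF 14 k
  simp only [inc_14, List.map_cons, List.map_nil, List.sum_cons, List.sum_nil] at h0
  omega

lemma p15 (F : List (Σ u : Fin 18, G.Walk u u)) (hF : ∀ C ∈ F, C.2.IsCycle) :
    Par (S F s(13, 15)) (S F s(15, 17)) (S F s(10, 15)) := by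
  intro k
  rw [ite_S, ite_S, ite_S]
  have h0 := chi_parity F hF 15 k
  simp only [inc_15, List.map_cons, List.map_nil, List.sum_cons, List.sum_nil] at h0
  omega

lemma p16 (F : List (Σ u : Fin 18, G.Walk u u)) (hF : ∀ C ∈ F, C.2.IsCycle) :
    Par (S F s(14, 16)) (S F s(11, 16)) (S F s(16, 13)) := by
  intro k
  rw [ite_S, ite_S, ite_S]
  have h0 := chi_parity F hF 16 k
  simp only [inc_16, List.map_cons, List.map_nil, List.sum_cons, List.sum_nil] at h0
  omega

lemma p17 (F : List (Σ u : Fin 18, G.Walk u u)) (hF : ∀ C ∈ F, C.2.IsCycle) :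
    Par (S F s(15, 17)) (S F s(12, 17)) (S F s(17, 14)) := by
  intro k
  rw [ite_S, ite_S, ite_S]
  have h0 := chi_parity F hF 17 k
  simp only [inc_17, List.map_cons, List.map_nil, List.sum_cons, List.sum_nil] at h0
  omega

lemma not_covered (F : List (Σ u : Fin 18, G.Walk u u)) (hF : ∀ C ∈ F, C.2.IsCycle)
    (h : ∀ e ∈ G.edgeSet, F.countP (fun C => decide (e ∈ C.2.edges)) = wt e) : False := by
  have hS : ∀ e ∈ eL, (S F e).card = wt e := by
    intro e he
    rw [card_S]
    exact h e ((mem_edgeSet_iff e).2 he)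
  obtain ⟨i0, hi0⟩ := Finset.card_eq_one.1 ((hS s(5, 7) (by decide)).trans (by decide))
  obtain ⟨i1, hi1⟩ := Finset.card_eq_one.1 ((hS s(1, 6) (by decide)).trans (by decide))
  obtain ⟨i2, hi2⟩ := Finset.card_eq_one.1 ((hS s(2, 7) (by decide)).trans (by decide))
  obtain ⟨i3, hi3⟩ := Finset.card_eq_one.1 ((hS s(3, 8) (by decide)).trans (by decide))
  obtain ⟨i4, hi4⟩ := Finset.card_eq_one.1 ((hS s(8, 5) (by decide)).trans (by decide))
  obtain ⟨i5, hi5⟩ := Finset.card_eq_one.1 ((hS s(4, 0) (by decide)).trans (by decide))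
  obtain ⟨i6, hi6⟩ := Finset.card_eq_one.1 ((hS s(4, 9) (by decide)).trans (by decide))
  obtain ⟨i7, hi7⟩ := Finset.card_eq_one.1 ((hS s(9, 6) (by decide)).trans (by decide))
  obtain ⟨i8, hi8⟩ := Finset.card_eq_one.1 ((hS s(13, 15) (by decide)).trans (by decide))
  obtain ⟨i9, hi9⟩ := Finset.card_eq_one.1 ((hS s(14, 16) (by decide)).trans (by decide))
  obtain ⟨i10, hi10⟩ := Finset.card_eq_one.1 ((hS s(10, 11) (by decide)).trans (by decide))
  obtain ⟨i11, hi11⟩ := Finset.card_eq_one.1 ((hS s(15, 17) (by decide)).trans (by decide))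
  obtain ⟨i12, hi12⟩ := Finset.card_eq_one.1 ((hS s(11, 16) (by decide)).trans (by decide))
  obtain ⟨i13, hi13⟩ := Finset.card_eq_one.1 ((hS s(12, 17) (by decide)).trans (by decide))
  obtain ⟨i14, hi14⟩ := Finset.card_eq_one.1 ((hS s(0, 13) (by decide)).trans (by decide))
  obtain ⟨i15, hi15⟩ := Finset.card_eq_one.1 ((hS s(1, 12) (by decide)).trans (by decide))
  obtain ⟨i16, hi16⟩ := Finset.card_eq_one.1 ((hS s(2, 10) (by decide)).trans (by decide))
  obtain ⟨i17, hi17⟩ := Finset.card_eq_one.1 ((hS s(3, 14) (by decide)).trans (by decide))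
  have t0 : (S F s(0, 5)).card = 2 := (hS s(0, 5) (by decide)).trans (by decide)
  have t1 : (S F s(1, 2)).card = 2 := (hS s(1, 2) (by decide)).trans (by decide)
  have t2 : (S F s(6, 8)).card = 2 := (hS s(6, 8) (by decide)).trans (by decide)
  have t3 : (S F s(7, 9)).card = 2 := (hS s(7, 9) (by decide)).trans (by decide)
  have t4 : (S F s(3, 4)).card = 2 := (hS s(3, 4) (by decide)).trans (by decide)
  have t5 : (S F s(10, 15)).card = 2 := (hS s(10, 15) (by decide)).trans (by decide)
  have t6 : (S F s(11, 12)).card = 2 := (hS s(11, 12) (by decide)).trans (by decide)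
  have t7 : (S F s(16, 13)).card = 2 := (hS s(16, 13) (by decide)).trans (by decide)
  have t8 : (S F s(17, 14)).card = 2 := (hS s(17, 14) (by decide)).trans (by decide)
  obtain ⟨n0, q0⟩ := labels hi5 hi14 t0 (p0 F hF)
  obtain ⟨n1, q1⟩ := labels hi1 hi15 t1 (p1 F hF)
  obtain ⟨n2, q2⟩ := labels hi2 hi16 t1 (p2 F hF)
  obtain ⟨n3, q3⟩ := labels hi3 hi17 t4 (p3 F hF)
  obtain ⟨n4, q4⟩ := labels hi5 hi6 t4 (p4 F hF)
  obtain ⟨n5, q5⟩ := labels hi0 hi4 t0 (p5 F hF)
  obtain ⟨n6, q6⟩ := labels hi1 hi7 t2 (p6 F hF)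
  obtain ⟨n7, q7⟩ := labels hi0 hi2 t3 (p7 F hF)
  obtain ⟨n8, q8⟩ := labels hi3 hi4 t2 (p8 F hF)
  obtain ⟨n9, q9⟩ := labels hi6 hi7 t3 (p9 F hF)
  obtain ⟨n10, q10⟩ := labels hi10 hi16 t5 (p10 F hF)
  obtain ⟨n11, q11⟩ := labels hi10 hi12 t6 (p11 F hF)
  obtain ⟨n12, q12⟩ := labels hi13 hi15 t6 (p12 F hF)
  obtain ⟨n13, q13⟩ := labels hi8 hi14 t7 (p13 F hF)
  obtain ⟨n14, q14⟩ := labels hi9 hi17 t8 (p14 F hF)
  obtain ⟨n15, q15⟩ := labels hi8 hi11 t5 (p15 F hF)
  obtain ⟨n16, q16⟩ := labels hi9 hi12 t7 (p16 F hF)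
  obtain ⟨n17, q17⟩ := labels hi11 hi13 t8 (p17 F hF)
  have d0 := pair_cases q0 q5 n0
  have d1 := pair_cases q1 q2 n1
  have d2 := pair_cases q6 q8 n6
  have d3 := pair_cases q7 q9 n7
  have d4 := pair_cases q3 q4 n3
  have d5 := pair_cases q10 q15 n10
  have d6 := pair_cases q11 q12 n11
  have d7 := pair_cases q16 q13 n16
  have d8 := pair_cases q17 q14 n17
  clear hS hi0 hi1 hi2 hi3 hi4 hi5 hi6 hi7 hi8 hi9 hi10 hi11 hi12 hi13 hi14 hi15 hi16 hi17 t0 t1 t2 t3 t4 t5 t6 t7 t8 q0 q1 q2 q3 q4 q5 q6 q7 q8 q9 q10 q11 q12 q13 q14 q15 q16 q17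
  grind

end Pool.Agent.Y563.BS
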